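import Pool.Agent.H624R3.CP.Stmts

/-! Task STAR of project COVPROD -/

set_option autoImplicit false
set_option maxHeartbeats 4000000

open MeasureTheory Metric Real

namespace Pool.Agent.H821R3.CP

open Pool.Agent.H624R3.CP

section

variable {V : Type*} [NormedAddCommGroup V] [InnerProductSpace ℝ V] [FiniteDimensional ℝ V]
  [MeasurableSpace V] [BorelSpace V] (μ : Measure V) [μ.IsAddHaarMeasure]

theorem slab (w : V) (η ρ R : ℝ) (hη : 0 < η) (hηρ : η ≤ ρ) (hRρ : R ≤ ρ) :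
    ENNReal.ofReal (η / ρ) * μ (closedBall 0 R) ≤
      μ {t : V | ‖t‖ ≤ R ∧ |inner ℝ t w| ≤ η * ‖w‖} := by
  have hρ : 0 < ρ := lt_of_lt_of_le hη hηρ
  have hc0 : 0 < η / ρ := by positivity
  have hc1 : η / ρ ≤ 1 := (div_le_one hρ).2 hηρ
  by_cases hw : w = 0
  · subst hw
    have h1 : ENNReal.ofReal (η / ρ) ≤ 1 := by
      rw [← ENNReal.ofReal_one]
      exact ENNReal.ofReal_le_ofReal hc1
    refine (mul_le_mul_left h1 _).trans ?_
    rw [one_mul]
    refine measure_mono ?_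
    intro t ht
    rw [mem_closedBall_zero_iff] at ht
    exact ⟨ht, by simp⟩
  · have hwn : 0 < ‖w‖ := norm_pos_iff.2 hw
    set c := η / ρ with hc
    set v : V := (‖w‖⁻¹ : ℝ) • w with hv
    have hvn : ‖v‖ = 1 := by
      rw [hv, norm_smul, norm_inv, norm_norm, inv_mul_cancel₀ hwn.ne']
    have hvv : inner ℝ v v = (1 : ℝ) := by
      rw [real_inner_self_eq_norm_sq, hvn, one_pow]
    have hwv : w = ‖w‖ • v := by
      rw [hv, smul_smul, mul_inv_cancel₀ hwn.ne', one_smul]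
    clear_value v
    let f : V →ₗ[ℝ] V := LinearMap.transvection (innerₗ V v) ((c - 1) • v)
    have hdet : LinearMap.det f = c := by
      change LinearMap.det (LinearMap.transvection (innerₗ V v) ((c - 1) • v)) = c
      rw [LinearMap.transvection.det]
      simp only [innerₗ_apply_apply]
      rw [inner_smul_right, hvv]
      ring
    have himg := Measure.addHaar_image_linearMap μ f (closedBall 0 R)
    rw [hdet, abs_of_pos hc0] at himg
    rw [← himg]
    refine measure_mono ?_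
    rintro _ ⟨s, hs, rfl⟩
    rw [mem_closedBall_zero_iff] at hs
    have hfs : f s = s + (inner ℝ v s : ℝ) • ((c - 1) • v) := rfl
    have hip : inner ℝ (f s) v = c * inner ℝ v s := by
      rw [hfs, inner_add_left, real_inner_smul_left, real_inner_smul_left, hvv,
        real_inner_comm v s]
      ring
    have hnorm : ‖f s‖ ^ 2 ≤ ‖s‖ ^ 2 := by
      have h1 : ‖f s‖ ^ 2 = ‖s‖ ^ 2 - (1 - c ^ 2) * (inner ℝ v s) ^ 2 := by
        rw [hfs, norm_add_sq_real, norm_smul, norm_smul, hvn, inner_smul_right, inner_smul_right,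
          real_inner_comm v s]
        rw [Real.norm_eq_abs, Real.norm_eq_abs]
        have e1 : (|inner ℝ v s| * (|c - 1| * 1)) ^ 2 = (inner ℝ v s) ^ 2 * (c - 1) ^ 2 := by
          rw [mul_one, mul_pow, sq_abs, sq_abs]
        rw [e1]
        ring
      rw [h1]
      have : 0 ≤ (1 - c ^ 2) * (inner ℝ v s) ^ 2 := by
        refine mul_nonneg ?_ (sq_nonneg _)
        nlinarith
      linarith
    constructor
    · exact (abs_le_of_sq_le_sq' hnorm (norm_nonneg _)).2.trans hs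
    · rw [hwv, inner_smul_right, hip, abs_mul, abs_mul, abs_of_pos hc0, abs_of_pos hwn]
      have h2 : |inner ℝ v s| ≤ ρ := by
        refine (abs_real_inner_le_norm v s).trans ?_
        rw [hvn, one_mul]
        exact hs.trans hRρ
      have h3 : c * |inner ℝ v s| ≤ η := by
        calc c * |inner ℝ v s| ≤ c * ρ := mul_le_mul_of_nonneg_left h2 hc0.le
          _ = η := by rw [hc, div_mul_cancel₀ _ hρ.ne']
      rw [norm_smul, norm_norm, hvn, mul_one, mul_comm η]
      exact mul_le_mul_of_nonneg_left h3 hwn.le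

theorem one (w : V) (η ρ : ℝ) (hη : 0 < η) (hηρ : η ≤ ρ) (hi : 1 ≤ Module.finrank ℝ V) :
    ENNReal.ofReal ((η / ρ) * (√(max 0 (ρ ^ 2 - ‖w‖ ^ 2 / 4))) ^ (Module.finrank ℝ V)) *
      μ (closedBall 0 1) ≤
      μ {u : V | ‖u‖ ≤ √(ρ ^ 2 + 2 * η * ρ) ∧ ‖u + w‖ ≤ √(ρ ^ 2 + 2 * η * ρ)} := by
  have hρ : 0 < ρ := lt_of_lt_of_le hη hηρ
  have hc0 : 0 < η / ρ := by positivity
  by_cases hneg : ρ ^ 2 - ‖w‖ ^ 2 / 4 ≤ 0
  · rw [max_eq_left hneg, Real.sqrt_zero, zero_pow (by omega), mul_zero, ENNReal.ofReal_zero,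
      zero_mul]
    exact zero_le
  · push Not at hneg
    rw [max_eq_right hneg.le]
    set R := √(ρ ^ 2 - ‖w‖ ^ 2 / 4) with hR
    have hR0 : 0 ≤ R := Real.sqrt_nonneg _
    have hR2 : R ^ 2 = ρ ^ 2 - ‖w‖ ^ 2 / 4 := Real.sq_sqrt hneg.le
    have hRρ : R ≤ ρ := by
      refine (abs_le_of_sq_le_sq' ?_ hρ.le).2
      rw [hR2]
      have := sq_nonneg ‖w‖
      linarith
    have hw2 : ‖w‖ ≤ 2 * ρ := by
      refine (abs_le_of_sq_le_sq' ?_ (by positivity)).2
      nlinarith
    rw [ENNReal.ofReal_mul hc0.le, mul_assoc, ← Measure.addHaar_closedBall' μ (0 : V) hR0]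
    refine (slab μ w η ρ R hη hηρ hRρ).trans ?_
    refine le_trans (measure_mono ?_) (measure_preimage_add μ (-((1 / 2 : ℝ) • w)) _).le
    rintro t ⟨ht1, ht2⟩
    have ht3 := abs_le.1 ht2
    have hin : inner ℝ ((1 / 2 : ℝ) • w) t = 1 / 2 * inner ℝ t w := by
      rw [real_inner_smul_left, real_inner_comm]
    have htt : ‖t‖ ^ 2 ≤ R ^ 2 := pow_le_pow_left₀ (norm_nonneg _) ht1 2
    have hwh : ‖(1 / 2 : ℝ) • w‖ ^ 2 = ‖w‖ ^ 2 / 4 := by
      rw [norm_smul, mul_pow, Real.norm_eq_abs]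
      norm_num
      ring
    have hbd : η * ‖w‖ ≤ 2 * η * ρ := by
      have := mul_le_mul_of_nonneg_left hw2 hη.le
      linarith
    constructor
    · apply Real.le_sqrt_of_sq_le
      have e1 : ‖-((1 / 2 : ℝ) • w) + t‖ ^ 2 = ‖w‖ ^ 2 / 4 - inner ℝ t w + ‖t‖ ^ 2 := by
        rw [norm_add_sq_real, norm_neg, inner_neg_left, hin, hwh]
        ring
      rw [e1]
      linarith [ht3.1]
    · apply Real.le_sqrt_of_sq_le
      have e0 : -((1 / 2 : ℝ) • w) + t + w = (1 / 2 : ℝ) • w + t := by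
        module
      have e1 : ‖(1 / 2 : ℝ) • w + t‖ ^ 2 = ‖w‖ ^ 2 / 4 + inner ℝ t w + ‖t‖ ^ 2 := by
        rw [norm_add_sq_real, hin, hwh]
        ring
      rw [e0, e1]
      linarith [ht3.2]

include μ in
theorem main {ι : Type*} (T : Finset ι) (w : ι → V) (η ρ n : ℝ) (hη : 0 < η) (hηρ : η ≤ ρ)
    (hi : 1 ≤ Module.finrank ℝ V) (hn : 0 ≤ n)
    (h : ∀ p : V, ∀ T' : Finset ι, T' ⊆ T → (∀ z ∈ T', ‖w z - p‖ ≤ √(ρ ^ 2 + 2 * η * ρ)) →
      (T'.card : ℝ) ≤ n) :
    ∑ z ∈ T, (η / ρ) * (√(max 0 (ρ ^ 2 - ‖w z‖ ^ 2 / 4))) ^ (Module.finrank ℝ V) ≤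
      n * (√(ρ ^ 2 + 2 * η * ρ)) ^ (Module.finrank ℝ V) := by
  classical
  have hρ : 0 < ρ := lt_of_lt_of_le hη hηρ
  have hc0 : 0 < η / ρ := by positivity
  set r := √(ρ ^ 2 + 2 * η * ρ) with hr
  have hr0 : 0 ≤ r := Real.sqrt_nonneg _
  set i := Module.finrank ℝ V with hidef
  set U : ι → Set V := fun z => {u : V | ‖u‖ ≤ r ∧ ‖u + w z‖ ≤ r} with hU
  have hUm : ∀ z, MeasurableSet (U z) := by
    intro z
    have h1 : IsClosed {u : V | ‖u‖ ≤ r} := isClosed_le continuous_norm continuous_const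
    have h2 : IsClosed {u : V | ‖u + w z‖ ≤ r} :=
      isClosed_le (continuous_id.add continuous_const).norm continuous_const
    exact (h1.inter h2).measurableSet
  have hone : ∀ z ∈ T, ENNReal.ofReal ((η / ρ) * (√(max 0 (ρ ^ 2 - ‖w z‖ ^ 2 / 4))) ^ i) *
      μ (closedBall 0 1) ≤ μ (U z) := fun z _ => one μ (w z) η ρ hη hηρ hi
  have hsum : ∑ z ∈ T, μ (U z) ≤ ENNReal.ofReal n * μ (closedBall 0 r) := by
    have h1 : ∀ z ∈ T, μ (U z) = ∫⁻ u, (U z).indicator 1 u ∂μ := by
      intro z _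
      rw [lintegral_indicator_one (hUm z)]
    rw [Finset.sum_congr rfl h1, ← lintegral_finsetSum]
    · have h2 : ENNReal.ofReal n * μ (closedBall 0 r) =
          ∫⁻ u, (closedBall (0 : V) r).indicator (fun _ => ENNReal.ofReal n) u ∂μ := by
        rw [lintegral_indicator_const isClosed_closedBall.measurableSet]
      rw [h2]
      refine lintegral_mono fun u => ?_
      by_cases hu : u ∈ closedBall (0 : V) r
      · rw [Set.indicator_of_mem hu]
        have h3 : ∑ z ∈ T, (U z).indicator (1 : V → ENNReal) u =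
            ((T.filter fun z => u ∈ U z).card : ENNReal) := by
          rw [Finset.card_filter]
          push_cast
          refine Finset.sum_congr rfl fun z _ => ?_
          by_cases hz : u ∈ U z
          · rw [Set.indicator_of_mem hz, if_pos hz]
            rfl
          · rw [Set.indicator_of_notMem hz, if_neg hz]
        rw [h3]
        have h4 := h (-u) (T.filter fun z => u ∈ U z) (Finset.filter_subset _ _) (by
          intro z hz
          rw [Finset.mem_filter] at hz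
          rw [sub_neg_eq_add, add_comm]
          exact hz.2.2)
        rw [← ENNReal.ofReal_natCast]
        exact ENNReal.ofReal_le_ofReal h4
      · rw [Set.indicator_of_notMem hu, Finset.sum_eq_zero]
        intro z _
        rw [Set.indicator_of_notMem]
        intro hz
        apply hu
        rw [mem_closedBall_zero_iff]
        exact hz.1
    · intro z _
      exact (measurable_one.indicator (hUm z))
  have hball : μ (closedBall (0 : V) r) = ENNReal.ofReal (r ^ i) * μ (closedBall 0 1) :=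
    Measure.addHaar_closedBall' μ 0 hr0
  have hm0 : μ (closedBall (0 : V) 1) ≠ 0 := (measure_closedBall_pos μ 0 one_pos).ne'
  have hmt : μ (closedBall (0 : V) 1) ≠ ⊤ := (isCompact_closedBall _ _).measure_lt_top.ne
  have htot : (∑ z ∈ T, ENNReal.ofReal ((η / ρ) * (√(max 0 (ρ ^ 2 - ‖w z‖ ^ 2 / 4))) ^ i)) *
      μ (closedBall 0 1) ≤ (ENNReal.ofReal n * ENNReal.ofReal (r ^ i)) * μ (closedBall 0 1) := by
    rw [Finset.sum_mul, mul_assoc, ← hball]
    exact (Finset.sum_le_sum hone).trans hsum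
  have hcan := (ENNReal.mul_le_mul_iff_left hm0 hmt).1 htot
  rw [← ENNReal.ofReal_sum_of_nonneg (fun z _ => by positivity), ← ENNReal.ofReal_mul hn] at hcan
  exact (ENNReal.ofReal_le_ofReal_iff (by positivity)).1 hcan

end

theorem taskSTAR : TaskSTAR := by
  classical
  intro d i M S ρ η n _ hS hi hη hηρ h T hT
  have hρ : 0 < ρ := lt_of_lt_of_le hη hηρ
  have hn : 0 ≤ n := by
    have := h 0 ∅ (by simp)
    simpa using this
  let w : (Fin d → ℤ) → S := fun z => if hz : lp M z ∈ S then ⟨lp M z, hz⟩ else 0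
  have hw : ∀ z ∈ T, ((w z : S) : E d) = lp M z := by
    intro z hz
    simp only [w, dif_pos (hT z hz)]
  have hwn : ∀ z ∈ T, ‖w z‖ = ‖lp M z‖ := by
    intro z hz
    rw [← hw z hz]
    rfl
  have hmain := main (V := S) volume T w η ρ n hη hηρ (by rw [hS]; exact hi) hn (by
    intro p T' hT' hp
    refine h (p : E d) T' ?_
    intro z hz
    refine ⟨hT z (hT' hz), ?_⟩
    have := hp z hz
    rw [← hw z (hT' hz)]
    exact this)
  rw [hS] at hmain
  have hkey : ∑ z ∈ T, (max 0 (ρ ^ 2 - ‖lp M z‖ ^ 2 / 4)) ^ ((i : ℝ) / 2) =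
      (ρ / η) * ∑ z ∈ T, (η / ρ) * (√(max 0 (ρ ^ 2 - ‖w z‖ ^ 2 / 4))) ^ i := by
    rw [Finset.mul_sum]
    refine Finset.sum_congr rfl fun z hz => ?_
    rw [hwn z hz, ← mul_assoc, div_mul_div_cancel₀ hη.ne', div_self hρ.ne', one_mul]
    have hx : 0 ≤ max 0 (ρ ^ 2 - ‖lp M z‖ ^ 2 / 4) := le_max_left _ _
    generalize max 0 (ρ ^ 2 - ‖lp M z‖ ^ 2 / 4) = x at hx ⊢
    rw [Real.sqrt_eq_rpow, ← Real.rpow_natCast, ← Real.rpow_mul hx]
    congr 1
    ring
  rw [hkey, mul_assoc]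
  exact mul_le_mul_of_nonneg_left hmain (by positivity)

end Pool.Agent.H821R3.CP
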